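import Mathlib

set_option autoImplicit false

namespace Pool.Agent.Helper81.Cocycle

open Finset

variable {V : Type*} [DecidableEq V]

/-- The operator `E = δ + |S|` on functions on finite sets; `F` is called odd if `E F = F`. -/
def E (F : Finset V → ZMod 2) (S : Finset V) : ZMod 2 :=
  ∑ x ∈ S, F (S.erase x) + (S.card : ZMod 2) * F S

lemma two_eq_zero' : (2 : ZMod 2) = 0 := by decide

lemma add_self' (a : ZMod 2) : a + a = 0 := by
  rw [← two_mul, two_eq_zero', zero_mul]

lemma mul_self' (a : ZMod 2) : a * a = a := by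
  revert a; decide

lemma eq_zero_or_one' (a : ZMod 2) : a = 0 ∨ a = 1 := by
  revert a; decide

lemma sum_erase_erase (F : Finset V → ZMod 2) (S : Finset V) :
    ∑ x ∈ S, ∑ y ∈ S.erase x, F ((S.erase x).erase y) = 0 := by
  rw [Finset.sum_sigma']
  refine Finset.sum_involution (fun p _ => ⟨p.2, p.1⟩) ?_ ?_ ?_ ?_
  · rintro ⟨x, y⟩ h
    simp only [Finset.mem_sigma, Finset.mem_erase] at h
    have : (S.erase x).erase y = (S.erase y).erase x := Finset.erase_right_comm
    simp only [this]
    exact add_self' _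
  · rintro ⟨x, y⟩ h _ heq
    simp only [Finset.mem_sigma, Finset.mem_erase] at h
    have := congrArg Sigma.fst heq
    simp only at this
    exact h.2.1 this
  · rintro ⟨x, y⟩ h
    simp only [Finset.mem_sigma, Finset.mem_erase] at h ⊢
    exact ⟨h.2.2, fun e => h.2.1 e.symm, h.1⟩
  · rintro ⟨x, y⟩ h
    rfl

lemma E_E (F : Finset V → ZMod 2) : E (E F) = E F := by
  funext S
  unfold E
  rw [Finset.sum_add_distrib, sum_erase_erase, zero_add]
  have h1 : ∀ x ∈ S, ((S.erase x).card : ZMod 2) * F (S.erase x)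
      = ((S.card : ZMod 2) + 1) * F (S.erase x) := by
    intro x hx
    have : S.card = (S.erase x).card + 1 := by
      rw [Finset.card_erase_of_mem hx]
      have := Finset.card_pos.mpr ⟨x, hx⟩
      omega
    rw [this]
    push_cast
    have h2 : ((S.erase x).card : ZMod 2) + 1 + 1 = ((S.erase x).card : ZMod 2) := by
      rw [add_assoc, add_self', add_zero]
    rw [h2]
  rw [Finset.sum_congr rfl h1, ← Finset.mul_sum]
  generalize (∑ x ∈ S, F (S.erase x)) = a
  generalize (S.card : ZMod 2) = b
  generalize F S = c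
  revert a b c
  decide

lemma E_add (F G : Finset V → ZMod 2) : E (fun S => F S + G S) = fun S => E F S + E G S := by
  funext S
  unfold E
  rw [Finset.sum_add_distrib]
  ring

lemma E_one : E (fun _ : Finset V => (1 : ZMod 2)) = fun _ => 0 := by
  funext S
  unfold E
  simp only [Finset.sum_const, nsmul_eq_mul, mul_one]
  exact add_self' _

/-- join product with respect to a vertex subset -/
def mulOn (V1 : Finset V) (a b : Finset V → ZMod 2) (S : Finset V) : ZMod 2 :=
  a (S ∩ V1) * b (S \ V1)

lemma E_mulOn (V1 : Finset V) (a b : Finset V → ZMod 2) (S : Finset V) :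
    E (mulOn V1 a b) S = E a (S ∩ V1) * b (S \ V1) + a (S ∩ V1) * E b (S \ V1) := by
  unfold E mulOn
  have hS : S = (S ∩ V1) ∪ (S \ V1) := by
    ext x; simp only [Finset.mem_union, Finset.mem_inter, Finset.mem_sdiff]; tauto
  have hd : Disjoint (S ∩ V1) (S \ V1) := by
    rw [Finset.disjoint_left]
    intro x hx hx'
    simp only [Finset.mem_inter, Finset.mem_sdiff] at hx hx'
    exact hx'.2 hx.2
  have hc : S.card = (S ∩ V1).card + (S \ V1).card := by
    conv_lhs => rw [hS]
    exact Finset.card_union_of_disjoint hd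
  have hsum : ∑ x ∈ S, a (S.erase x ∩ V1) * b (S.erase x \ V1)
      = ∑ x ∈ S ∩ V1, a ((S ∩ V1).erase x) * b (S \ V1)
        + ∑ x ∈ S \ V1, a (S ∩ V1) * b ((S \ V1).erase x) := by
    have : ∑ x ∈ S, a (S.erase x ∩ V1) * b (S.erase x \ V1)
        = ∑ x ∈ (S ∩ V1) ∪ (S \ V1), a (S.erase x ∩ V1) * b (S.erase x \ V1) := by
      rw [← hS]
    rw [this, Finset.sum_union hd]
    congr 1
    · refine Finset.sum_congr rfl fun x hx => ?_
      simp only [Finset.mem_inter] at hx
      have e1 : S.erase x ∩ V1 = (S ∩ V1).erase x := by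
        ext y; simp only [Finset.mem_inter, Finset.mem_erase]; tauto
      have e2 : S.erase x \ V1 = S \ V1 := by
        ext y; simp only [Finset.mem_sdiff, Finset.mem_erase]
        constructor
        · rintro ⟨⟨h1, h2⟩, h3⟩; exact ⟨h2, h3⟩
        · rintro ⟨h2, h3⟩; exact ⟨⟨fun e => h3 (e ▸ hx.2), h2⟩, h3⟩
      rw [e1, e2]
    · refine Finset.sum_congr rfl fun x hx => ?_
      simp only [Finset.mem_sdiff] at hx
      have e1 : S.erase x ∩ V1 = S ∩ V1 := by
        ext y; simp only [Finset.mem_inter, Finset.mem_erase]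
        constructor
        · rintro ⟨⟨h1, h2⟩, h3⟩; exact ⟨h2, h3⟩
        · rintro ⟨h2, h3⟩; exact ⟨⟨fun e => hx.2 (e ▸ h3), h2⟩, h3⟩
      have e2 : S.erase x \ V1 = (S \ V1).erase x := by
        ext y; simp only [Finset.mem_sdiff, Finset.mem_erase]; tauto
      rw [e1, e2]
  rw [hsum, hc, ← Finset.sum_mul, ← Finset.mul_sum]
  push_cast
  ring

/-- the recursive construction -/
def P (V1 : Finset V) (N D : Finset V → ZMod 2) (S : Finset V) : ZMod 2 :=
  E N (S ∩ V1) + (1 + E N (S ∩ V1) + N (S ∩ V1)) * D (S \ V1)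

lemma E_P (V1 : Finset V) (N D : Finset V → ZMod 2) (hD : E D = D) :
    E (P V1 N D) = P V1 N D := by
  have h1 : P V1 N D = fun S => mulOn V1 (E N) (fun _ => 1) S
      + mulOn V1 (fun U => (1 + E N U) + N U) D S := by
    funext S
    unfold P mulOn
    ring
  rw [h1, E_add]
  funext S
  have h2 : E (fun U => (1 + E N U) + N U) = fun _ => 0 := by
    rw [E_add (fun U => 1 + E N U) N, E_add (fun _ => 1) (E N), E_one, E_E]
    funext U
    simp only [zero_add]
    exact add_self' _
  rw [E_mulOn, E_mulOn, E_E, E_one, h2, hD]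
  unfold mulOn
  ring

/-- odd functions restrict to cocycles on even levels -/
lemma odd_cocycle (F : Finset V → ZMod 2) (hF : E F = F) (Z : Finset V) (hZ : Odd Z.card) :
    ∑ x ∈ Z, F (Z.erase x) = 0 := by
  have h := congrFun hF Z
  unfold E at h
  have h1 : (Z.card : ZMod 2) = 1 := by
    obtain ⟨m, hm⟩ := hZ
    rw [hm]
    push_cast
    rw [two_eq_zero', zero_mul, zero_add]
  rw [h1, one_mul] at h
  exact add_eq_right.mp h

/-- analysis of the zeros of `P` -/
lemma P_zero (V1 : Finset V) (N D : Finset V → ZMod 2) (S : Finset V) (h : P V1 N D S = 0) :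
    N (S ∩ V1) ≠ 0 ∨ (∑ x ∈ S ∩ V1, N ((S ∩ V1).erase x) = 0 ∧ D (S \ V1) = 0) := by
  by_cases hN : N (S ∩ V1) = 0
  · right
    unfold P E at h
    rw [hN] at h
    simp only [mul_zero, add_zero] at h
    revert h
    generalize (∑ x ∈ S ∩ V1, N ((S ∩ V1).erase x)) = a
    generalize D (S \ V1) = b
    revert a b
    decide
  · exact Or.inl hN

end Pool.Agent.Helper81.Cocycle
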