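import Pool.Agent.Helper81.Cocycle.Step

set_option autoImplicit false
set_option linter.unusedSectionVars false

namespace Pool.Agent.Helper81.Cocycle

open Finset

/-- existence of an odd function with few zeros on the `k`-subsets of `Fin n` -/
lemma exists_odd (n k : ℕ) : ∃ F : Finset (Fin n) → ZMod 2, E F = F ∧
    ((((Finset.univ : Finset (Fin n)).powersetCard k).filter (fun S => F S = 0)).card : ℝ)
      ≤ (n.choose k : ℝ) * (17 / ((k : ℝ) + 1)) := by
  classical
  set V := Fin n
  -- choose the optimal odd function
  obtain ⟨F, hF, hmin⟩ := Finset.exists_min_image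
    ((Finset.univ : Finset (Finset (Fin n) → ZMod 2)).filter (fun F => E F = F))
    (fun F => (((Finset.univ : Finset (Fin n)).powersetCard k).filter (fun S => F S = 0)).card)
    ⟨fun _ => 0, by simp only [Finset.mem_filter, Finset.mem_univ, true_and]; funext S; simp [E]⟩
  simp only [Finset.mem_filter, Finset.mem_univ, true_and] at hF hmin
  refine ⟨F, hF, ?_⟩
  have key : ∀ J : ℕ,
      ((((Finset.univ : Finset (Fin n)).powersetCard k).filter (fun S => F S = 0)).card : ℝ)
      ≤ (n.choose k : ℝ) * (17 / ((k : ℝ) + 1) + (3 / 4) ^ J) := by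
    intro J
    obtain ⟨G, hG, hle⟩ := HH_bd (V := Fin n) J (fun S => if S.card = k then 1 else 0)
      (fun S => by split_ifs <;> norm_num)
    have h1 : ∑ S : Finset (Fin n), (if S.card = k then (1 : ℝ) else 0) * (if G S = 0 then 1 else 0)
        = ((((Finset.univ : Finset (Fin n)).powersetCard k).filter (fun S => G S = 0)).card : ℝ) := by
      rw [Finset.card_filter, Nat.cast_sum, ← Finset.powerset_univ,
        Finset.powersetCard_eq_filter, Finset.sum_filter]
      refine Finset.sum_congr rfl fun S _ => ?_
      split_ifs <;> simp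
    have h2 : ∑ S : Finset (Fin n), (if S.card = k then (1 : ℝ) else 0) * bd J S.card
        = (n.choose k : ℝ) * bd J k := by
      have e : ∀ S : Finset (Fin n), (if S.card = k then (1 : ℝ) else 0) * bd J S.card
          = if S.card = k then bd J k else 0 := by
        intro S
        split_ifs with h
        · rw [h, one_mul]
        · rw [zero_mul]
      rw [Finset.sum_congr rfl fun S _ => e S, ← Finset.sum_filter, Finset.sum_const,
        nsmul_eq_mul]
      congr 2
      rw [← Finset.powerset_univ, ← Finset.powersetCard_eq_filter, Finset.card_powersetCard]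
      simp
    rw [h1, h2] at hle
    refine le_trans ?_ hle
    exact_mod_cast hmin G hG
  have ht : Filter.Tendsto (fun J : ℕ => (n.choose k : ℝ) * (17 / ((k : ℝ) + 1) + (3 / 4 : ℝ) ^ J))
      Filter.atTop (nhds ((n.choose k : ℝ) * (17 / ((k : ℝ) + 1) + 0))) := by
    refine Filter.Tendsto.const_mul _ (Filter.Tendsto.const_add _ ?_)
    exact tendsto_pow_atTop_nhds_zero_of_lt_one (by norm_num) (by norm_num)
  have := ge_of_tendsto' ht key
  rwa [add_zero] at this

lemma even_card_of_odd_fun {n k : ℕ} (hk : Even k) (F : Finset (Fin n) → ZMod 2) (hF : E F = F)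
    (S : Finset (Fin n)) (hS : S.card = k + 1) :
    Even (((((Finset.univ : Finset (Fin n)).powersetCard k).filter (fun e => F e ≠ 0)).filter
      (fun e => e ⊆ S)).card) := by
  classical
  have hodd : Odd S.card := by rw [hS]; exact hk.add_one
  have h0 := odd_cocycle F hF S hodd
  have himg : (((Finset.univ : Finset (Fin n)).powersetCard k).filter (fun e => F e ≠ 0)).filter
      (fun e => e ⊆ S) = (S.filter (fun x => F (S.erase x) ≠ 0)).image (fun x => S.erase x) := by
    ext e
    simp only [Finset.mem_filter, Finset.mem_powersetCard, Finset.mem_image]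
    constructor
    · rintro ⟨⟨⟨-, hc⟩, hFe⟩, hsub⟩
      have h1 : (S \ e).card = 1 := by
        rw [Finset.card_sdiff_of_subset hsub, hS, hc]; omega
      obtain ⟨x, hx⟩ := Finset.card_eq_one.mp h1
      have hxS : x ∈ S \ e := by rw [hx]; exact Finset.mem_singleton_self x
      have he : S.erase x = e := by
        rw [← Finset.sdiff_singleton_eq_erase, ← hx]
        exact Finset.sdiff_sdiff_eq_self hsub
      exact ⟨x, ⟨(Finset.mem_sdiff.mp hxS).1, by rw [he]; exact hFe⟩, he⟩
    · rintro ⟨x, ⟨hxS, hFx⟩, rfl⟩
      refine ⟨⟨⟨Finset.subset_univ _, ?_⟩, hFx⟩, Finset.erase_subset _ _⟩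
      rw [Finset.card_erase_of_mem hxS, hS]; rfl
  rw [himg, Finset.card_image_of_injOn
    ((erase_injOn S).mono (by intro x hx; exact (Finset.mem_filter.mp hx).1))]
  rw [← ZMod.natCast_eq_zero_iff_even, Finset.card_filter, Nat.cast_sum]
  refine Eq.trans (Finset.sum_congr rfl fun x _ => ?_) h0
  rcases eq_zero_or_one' (F (S.erase x)) with h | h <;> simp [h]

lemma choose_le_of_cliqueFree {n k : ℕ} (hn : k + 1 ≤ n) (H : Finset (Finset (Fin n)))
    (hfree : ∀ S : Finset (Fin n), S.card = k + 1 → ¬ (S.powersetCard k ⊆ H)) :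
    n.choose k ≤ (k + 1) *
      (((Finset.univ : Finset (Fin n)).powersetCard k) \ H).card := by
  classical
  set NE := ((Finset.univ : Finset (Fin n)).powersetCard k) \ H with hNE
  have h := Finset.card_mul_le_card_mul (s := (Finset.univ : Finset (Fin n)).powersetCard (k + 1))
    (t := NE) (m := 1) (n := n - k) (fun S e => e ⊆ S) ?_ ?_
  · rw [Finset.card_powersetCard, Finset.card_univ, Fintype.card_fin, mul_one] at h
    -- C(n,k+1)(k+1) = C(n,k)(n-k)
    have h2 : n.choose (k + 1) * (k + 1) = n.choose k * (n - k) := Nat.choose_succ_right_eq n k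
    have h3 : n.choose k * (n - k) ≤ ((k + 1) * NE.card) * (n - k) := by
      calc n.choose k * (n - k) = n.choose (k + 1) * (k + 1) := h2.symm
        _ ≤ (NE.card * (n - k)) * (k + 1) := Nat.mul_le_mul_right _ h
        _ = ((k + 1) * NE.card) * (n - k) := by ring
    exact Nat.le_of_mul_le_mul_right h3 (by omega)
  · intro S hS
    have hc := (Finset.mem_powersetCard.mp hS).2
    have := hfree S hc
    rw [Finset.not_subset] at this
    obtain ⟨e, heS, heH⟩ := this
    rw [Finset.one_le_card]
    refine ⟨e, ?_⟩
    rw [Finset.mem_bipartiteAbove]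
    have he := Finset.mem_powersetCard.mp heS
    exact ⟨Finset.mem_sdiff.mpr ⟨Finset.mem_powersetCard.mpr ⟨Finset.subset_univ _, he.2⟩, heH⟩, he.1⟩
  · intro e he
    have hec := (Finset.mem_powersetCard.mp (Finset.mem_sdiff.mp he).1).2
    have hsub : Finset.bipartiteBelow (fun S e => e ⊆ S)
        ((Finset.univ : Finset (Fin n)).powersetCard (k + 1)) e ⊆ (eᶜ).image (fun x => insert x e) := by
      intro S hS
      rw [Finset.mem_bipartiteBelow] at hS
      have hc := (Finset.mem_powersetCard.mp hS.1).2
      have h1 : (S \ e).card = 1 := by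
        rw [Finset.card_sdiff_of_subset hS.2, hc, hec]; omega
      obtain ⟨x, hx⟩ := Finset.card_eq_one.mp h1
      have hxS : x ∈ S \ e := by rw [hx]; exact Finset.mem_singleton_self x
      refine Finset.mem_image.mpr ⟨x, Finset.mem_compl.mpr (Finset.mem_sdiff.mp hxS).2, ?_⟩
      rw [Finset.insert_eq, ← hx]
      exact Finset.sdiff_union_of_subset hS.2
    calc (Finset.bipartiteBelow (fun S e => e ⊆ S)
        ((Finset.univ : Finset (Fin n)).powersetCard (k + 1)) e).card
        ≤ ((eᶜ).image (fun x => insert x e)).card := Finset.card_le_card hsub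
      _ ≤ (eᶜ).card := Finset.card_image_le
      _ = n - k := by rw [Finset.card_compl, Fintype.card_fin, hec]

/-- main theorem -/
theorem main (k : ℕ) (hk : Even k) (n : ℕ) :
    ∃ C : Finset (Finset (Fin n)),
      (∀ e ∈ C, e.card = k) ∧
      (∀ S : Finset (Fin n), S.card = k + 1 → Even ((C.filter (fun e => e ⊆ S)).card)) ∧
      (k + 1) * (n.choose k - C.card) ≤ 17 * n.choose k ∧
      ∀ H : Finset (Finset (Fin n)), (∀ e ∈ H, e.card = k) →
        (∀ S : Finset (Fin n), S.card = k + 1 → ¬ (S.powersetCard k ⊆ H)) →
        n.choose k - C.card ≤ 17 * (n.choose k - H.card) := by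
  classical
  by_cases hn : k + 1 ≤ n
  · obtain ⟨F, hF, hle⟩ := exists_odd n k
    refine ⟨((Finset.univ : Finset (Fin n)).powersetCard k).filter (fun e => F e ≠ 0), ?_, ?_, ?_⟩
    · intro e he
      exact (Finset.mem_powersetCard.mp (Finset.mem_filter.mp he).1).2
    · intro S hS
      exact even_card_of_odd_fun hk F hF S hS
    · have hcard : n.choose k - (((Finset.univ : Finset (Fin n)).powersetCard k).filter
          (fun e => F e ≠ 0)).card
          = (((Finset.univ : Finset (Fin n)).powersetCard k).filter (fun e => F e = 0)).card := by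
        have h1 := Finset.card_filter_add_card_filter_not
          (s := (Finset.univ : Finset (Fin n)).powersetCard k) (fun e => F e = 0)
        rw [Finset.card_powersetCard, Finset.card_univ, Fintype.card_fin] at h1
        simp only [ne_eq]
        omega
      rw [hcard]
      set z := (((Finset.univ : Finset (Fin n)).powersetCard k).filter (fun e => F e = 0)).card
        with hz
      have hA : (k + 1) * z ≤ 17 * n.choose k := by
        have h2 : ((k : ℝ) + 1) * (z : ℝ) ≤ 17 * (n.choose k : ℝ) := by
          have hk1 : (0 : ℝ) < (k : ℝ) + 1 := by positivity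
          calc ((k : ℝ) + 1) * (z : ℝ) ≤ ((k : ℝ) + 1) * ((n.choose k : ℝ) * (17 / ((k : ℝ) + 1))) :=
                mul_le_mul_of_nonneg_left hle hk1.le
            _ = 17 * (n.choose k : ℝ) := by field_simp
        exact_mod_cast h2
      refine ⟨hA, ?_⟩
      intro H hHk hfree
      have h3 := choose_le_of_cliqueFree hn H hfree
      have hHsub : H ⊆ (Finset.univ : Finset (Fin n)).powersetCard k := fun e he =>
        Finset.mem_powersetCard.mpr ⟨Finset.subset_univ _, hHk e he⟩
      rw [Finset.card_sdiff_of_subset hHsub, Finset.card_powersetCard, Finset.card_univ,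
        Fintype.card_fin] at h3
      have h4 : (k + 1) * z ≤ (k + 1) * (17 * (n.choose k - H.card)) := by
        calc (k + 1) * z ≤ 17 * n.choose k := hA
          _ ≤ 17 * ((k + 1) * (n.choose k - H.card)) := Nat.mul_le_mul_left _ h3
          _ = (k + 1) * (17 * (n.choose k - H.card)) := by ring
      exact Nat.le_of_mul_le_mul_left h4 (Nat.succ_pos k)
  · refine ⟨(Finset.univ : Finset (Fin n)).powersetCard k, ?_, ?_, ?_, ?_⟩
    · intro e he
      exact (Finset.mem_powersetCard.mp he).2
    · intro S hS
      exfalso
      have := Finset.card_le_univ S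
      rw [Fintype.card_fin, hS] at this
      omega
    · rw [Finset.card_powersetCard, Finset.card_univ, Fintype.card_fin, Nat.sub_self, mul_zero]
      exact Nat.zero_le _
    · intro H _ _
      rw [Finset.card_powersetCard, Finset.card_univ, Fintype.card_fin, Nat.sub_self]
      exact Nat.zero_le _

end Pool.Agent.Helper81.Cocycle
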