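import Pool.Agent.Helper81.Cocycle.Final

set_option autoImplicit false

namespace Pool.Agent.Helper81.Cocycle.OldResult

/-- For every even `k ≥ 2` and every `n` some cocycle `C` (a `k`-uniform hypergraph on `n` vertices
such that every `k+1` vertices contain an even number of edges) misses at most a fraction
`17/(k+1)` of all `k`-sets, and its number of non-edges is at most `17` times the number of
non-edges of any `k`-uniform hypergraph without a complete sub-hypergraph on `k+1` vertices. -/
theorem result :
    ∀ k : ℕ, Even k → 2 ≤ k → ∀ n : ℕ,
      ∃ C : Finset (Finset (Fin n)),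
        (∀ e ∈ C, e.card = k) ∧
        (∀ S : Finset (Fin n), S.card = k + 1 →
          Even ((C.filter (fun e => e ⊆ S)).card)) ∧
        (k + 1) * (n.choose k - C.card) ≤ 17 * n.choose k ∧
        ∀ H : Finset (Finset (Fin n)),
          (∀ e ∈ H, e.card = k) →
          (∀ S : Finset (Fin n), S.card = k + 1 → ¬ (S.powersetCard k ⊆ H)) →
          n.choose k - C.card ≤ 17 * (n.choose k - H.card) :=
  fun k hk _ n => Pool.Agent.Helper81.Cocycle.main k hk n

end Pool.Agent.Helper81.Cocycle.OldResult
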