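import Pool.Agent.Helper81.Cocycle.Algebra

set_option autoImplicit false

namespace Pool.Agent.Helper81.Cocycle

open Finset

variable {V : Type*} [DecidableEq V] [Fintype V]

/-- the density on sets of size `t` -/
noncomputable def q (t : ℕ) : ℝ := 3 / (4 * ((t : ℝ) + 1))

lemma q_pos (t : ℕ) : 0 < q t := by unfold q; positivity

lemma q_lt_one (t : ℕ) : q t < 1 := by
  unfold q
  rw [div_lt_one (by positivity)]
  have : (0 : ℝ) ≤ t := Nat.cast_nonneg t
  linarith

/-- weight of a value `b` at the set `T` -/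
noncomputable def wq (T : Finset V) (b : ZMod 2) : ℝ := if b = 0 then 1 - q T.card else q T.card

omit [DecidableEq V] [Fintype V] in
lemma wq_pos (T : Finset V) (b : ZMod 2) : 0 < wq T b := by
  unfold wq
  split_ifs
  · linarith [q_lt_one T.card]
  · exact q_pos _

lemma sum_zmod2 (f : ZMod 2 → ℝ) : ∑ b : ZMod 2, f b = f 0 + f 1 := by
  exact Fin.sum_univ_two f

lemma sum_prod_fun (g : Finset V → ZMod 2 → ℝ) :
    ∑ N : Finset V → ZMod 2, ∏ T : Finset V, g T (N T) = ∏ T : Finset V, (g T 0 + g T 1) := by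
  have h := Finset.prod_univ_sum (fun _ : Finset V => (Finset.univ : Finset (ZMod 2))) g
  rw [Fintype.piFinset_univ] at h
  rw [← h]
  refine Finset.prod_congr rfl fun T _ => ?_
  exact sum_zmod2 _

/-- probability weight of a function -/
noncomputable def nu (N : Finset V → ZMod 2) : ℝ := ∏ T : Finset V, wq T (N T)

lemma nu_pos (N : Finset V → ZMod 2) : 0 < nu N := Finset.prod_pos fun T _ => wq_pos T _

lemma wq_sum (T : Finset V) : wq T 0 + wq T 1 = 1 := by
  unfold wq; simp

lemma sum_nu : ∑ N : Finset V → ZMod 2, nu N = 1 := by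
  unfold nu
  rw [sum_prod_fun]
  exact Finset.prod_eq_one fun T _ => wq_sum T

lemma sum_nu_ne (U : Finset V) :
    ∑ N : Finset V → ZMod 2, nu N * (if N U ≠ 0 then 1 else 0) = q U.card := by
  have h : ∀ N : Finset V → ZMod 2, nu N * (if N U ≠ 0 then (1 : ℝ) else 0)
      = ∏ T : Finset V, (wq T (N T) * (if T = U then (if N T ≠ 0 then (1 : ℝ) else 0) else 1)) := by
    intro N
    rw [Finset.prod_mul_distrib]
    unfold nu
    congr 1
    rw [Finset.prod_ite_eq' Finset.univ U (fun T => if N T ≠ 0 then (1 : ℝ) else 0)]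
    simp
  rw [Finset.sum_congr rfl fun N _ => h N,
    sum_prod_fun (fun T b => wq T b * (if T = U then (if b ≠ 0 then (1 : ℝ) else 0) else 1))]
  have h2 : ∀ T : Finset V, (wq T 0 * (if T = U then (if (0 : ZMod 2) ≠ 0 then (1 : ℝ) else 0) else 1)
      + wq T 1 * (if T = U then (if (1 : ZMod 2) ≠ 0 then (1 : ℝ) else 0) else 1))
      = if T = U then q T.card else 1 := by
    intro T
    by_cases hT : T = U
    · simp [hT, wq]
    · simp [hT, wq_sum]
  rw [Finset.prod_congr rfl fun T _ => h2 T, Finset.prod_ite_eq' Finset.univ U]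
  simp

/-- the sign character of `ZMod 2` -/
noncomputable def chi (b : ZMod 2) : ℝ := if b = 0 then 1 else -1

lemma chi_add (a b : ZMod 2) : chi (a + b) = chi a * chi b := by
  rcases eq_zero_or_one' a with ha | ha <;> rcases eq_zero_or_one' b with hb | hb <;>
    subst ha <;> subst hb <;> simp [chi, add_self' (1 : ZMod 2)]

lemma chi_sum {ι : Type*} (s : Finset ι) (f : ι → ZMod 2) :
    chi (∑ i ∈ s, f i) = ∏ i ∈ s, chi (f i) := by
  classical
  induction s using Finset.induction_on with
  | empty => simp [chi]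
  | insert a s ha ih => rw [Finset.sum_insert ha, Finset.prod_insert ha, chi_add, ih]

lemma ind_chi (b : ZMod 2) : (if b = 0 then (1 : ℝ) else 0) = (1 + chi b) / 2 := by
  unfold chi
  split_ifs <;> norm_num

lemma erase_injOn (U : Finset V) : Set.InjOn (fun x => U.erase x) (U : Set V) := by
  intro x hx y hy h
  simp only at h
  by_contra hne
  have : x ∈ U.erase y := Finset.mem_erase.mpr ⟨hne, hx⟩
  rw [← h] at this
  exact (Finset.notMem_erase x U) this

lemma sum_nu_even (U : Finset V) :
    ∑ N : Finset V → ZMod 2, nu N * (if ∑ x ∈ U, N (U.erase x) = 0 then 1 else 0)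
      = (1 + (1 - 2 * q (U.card - 1)) ^ U.card) / 2 := by
  set I : Finset (Finset V) := U.image (fun x => U.erase x) with hI
  have h : ∀ N : Finset V → ZMod 2,
      nu N * (if ∑ x ∈ U, N (U.erase x) = 0 then (1 : ℝ) else 0)
      = (nu N + ∏ T : Finset V, (wq T (N T) * (if T ∈ I then chi (N T) else 1))) / 2 := by
    intro N
    rw [ind_chi, chi_sum, Finset.prod_mul_distrib]
    have h1 : ∏ x ∈ U, chi (N (U.erase x)) = ∏ T : Finset V, (if T ∈ I then chi (N T) else 1) := by
      rw [Finset.prod_ite_mem, Finset.univ_inter, hI, Finset.prod_image (erase_injOn U)]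
    rw [h1]
    unfold nu
    ring
  rw [Finset.sum_congr rfl fun N _ => h N, ← Finset.sum_div, Finset.sum_add_distrib, sum_nu,
    sum_prod_fun (fun T b => wq T b * (if T ∈ I then chi b else 1))]
  congr 2
  have h2 : ∀ T : Finset V, (wq T 0 * (if T ∈ I then chi 0 else 1)
      + wq T 1 * (if T ∈ I then chi 1 else 1)) = if T ∈ I then 1 - 2 * q T.card else 1 := by
    intro T
    by_cases hT : T ∈ I
    · simp [hT, wq, chi]; ring
    · simp [hT, wq_sum]
  rw [Finset.prod_congr rfl fun T _ => h2 T, Finset.prod_ite_mem, Finset.univ_inter, hI,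
    Finset.prod_image (erase_injOn U)]
  rw [Finset.prod_congr rfl (g := fun _ => 1 - 2 * q (U.card - 1))
    (fun x hx => by rw [Finset.card_erase_of_mem hx])]
  rw [Finset.prod_const]

/-- the vertex subset weight -/
noncomputable def wt (w : ℝ) (A X : Finset V) : ℝ := ∏ x ∈ A, (if x ∈ X then w else 1 - w)

lemma wt_pos (w : ℝ) (h0 : 0 < w) (h1 : w < 1) (A X : Finset V) : 0 < wt w A X :=
  Finset.prod_pos fun x _ => by split_ifs <;> linarith

lemma wt_marginal (w : ℝ) (S : Finset V) (h : Finset V → ℝ) (A : Finset V) (hA : Disjoint A S) :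
    ∑ X ∈ (A ∪ S).powerset, wt w (A ∪ S) X * h (X ∩ S)
      = ∑ U ∈ S.powerset, wt w S U * h U := by
  induction A using Finset.induction_on with
  | empty =>
    rw [Finset.empty_union]
    refine Finset.sum_congr rfl fun X hX => ?_
    rw [Finset.inter_eq_left.mpr (Finset.mem_powerset.mp hX)]
  | insert a A ha ih =>
    have haS : a ∉ S := Finset.disjoint_left.mp hA (Finset.mem_insert_self a A)
    have hAS : Disjoint A S := hA.mono_left (Finset.subset_insert a A)
    have haAS : a ∉ A ∪ S := by
      simp only [Finset.mem_union]; tauto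
    rw [Finset.insert_union, Finset.sum_powerset_insert haAS]
    have e1 : ∀ X ∈ (A ∪ S).powerset, wt w (insert a (A ∪ S)) X * h (X ∩ S)
        = (1 - w) * (wt w (A ∪ S) X * h (X ∩ S)) := by
      intro X hX
      have haX : a ∉ X := fun hx => haAS (Finset.mem_powerset.mp hX hx)
      unfold wt
      rw [Finset.prod_insert haAS, if_neg haX]
      ring
    have e2 : ∀ X ∈ (A ∪ S).powerset, wt w (insert a (A ∪ S)) (insert a X) * h (insert a X ∩ S)
        = w * (wt w (A ∪ S) X * h (X ∩ S)) := by
      intro X hX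
      have haX : a ∉ X := fun hx => haAS (Finset.mem_powerset.mp hX hx)
      have i1 : insert a X ∩ S = X ∩ S := Finset.insert_inter_of_notMem haS
      have i2 : wt w (insert a (A ∪ S)) (insert a X) = w * wt w (A ∪ S) X := by
        unfold wt
        rw [Finset.prod_insert haAS, if_pos (Finset.mem_insert_self a X)]
        congr 1
        refine Finset.prod_congr rfl fun x hx => ?_
        have hxa : x ≠ a := fun e => haAS (e ▸ hx)
        simp [Finset.mem_insert, hxa]
      rw [i1, i2]
      ring
    rw [Finset.sum_congr rfl e1, Finset.sum_congr rfl e2, ← Finset.mul_sum, ← Finset.mul_sum,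
      ih hAS]
    ring

lemma wt_marginal_univ (w : ℝ) (S : Finset V) (h : Finset V → ℝ) :
    ∑ X : Finset V, wt w Finset.univ X * h (X ∩ S) = ∑ U ∈ S.powerset, wt w S U * h U := by
  have hd : Disjoint Sᶜ S := disjoint_compl_left
  have := wt_marginal w S h Sᶜ hd
  have hu : Sᶜ ∪ S = Finset.univ := by
    ext x; simp only [Finset.mem_union, Finset.mem_compl, Finset.mem_univ, iff_true]; tauto
  rw [hu, Finset.powerset_univ] at this
  exact this

lemma wt_self (w : ℝ) (S U : Finset V) (hU : U ⊆ S) :
    wt w S U = w ^ U.card * (1 - w) ^ (S.card - U.card) := by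
  unfold wt
  rw [Finset.prod_ite, Finset.prod_const, Finset.prod_const]
  congr 2
  · congr 1
    rw [Finset.filter_mem_eq_inter, Finset.inter_eq_right.mpr hU]
  · rw [← Finset.card_sdiff_of_subset hU]
    congr 1
    ext x
    simp only [Finset.mem_filter, Finset.mem_sdiff]

lemma sum_wt (w : ℝ) : ∑ X : Finset V, wt w Finset.univ X = 1 := by
  have := wt_marginal_univ (V := V) w ∅ (fun _ => 1)
  simpa [wt] using this

lemma exists_le_of_weighted {ι : Type*} (s : Finset ι) (p X : ι → ℝ) (M : ℝ)
    (hp : ∀ i ∈ s, 0 < p i) (h1 : ∑ i ∈ s, p i = 1) (hX : ∑ i ∈ s, p i * X i ≤ M) :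
    ∃ i ∈ s, X i ≤ M := by
  have hne : s.Nonempty := by
    rw [Finset.nonempty_iff_ne_empty]
    rintro rfl
    simp at h1
  have h2 : ∑ i ∈ s, p i * X i ≤ ∑ i ∈ s, p i * M := by
    rw [← Finset.sum_mul, h1, one_mul]; exact hX
  obtain ⟨i, hi, hle⟩ := Finset.exists_le_of_sum_le hne h2
  exact ⟨i, hi, le_of_mul_le_mul_left hle (hp i hi)⟩

end Pool.Agent.Helper81.Cocycle
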