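import Pool.Agent.Helper81.Cocycle.Random

set_option autoImplicit false
set_option linter.unusedSectionVars false

namespace Pool.Agent.Helper81.Cocycle

open Finset

/-- binomial expectation -/
noncomputable def binE (w : ℝ) (k : ℕ) (f : ℕ → ℝ) : ℝ :=
  ∑ s ∈ Finset.range (k + 1), (k.choose s : ℝ) * (w ^ s * (1 - w) ^ (k - s)) * f s

lemma binE_add (w : ℝ) (k : ℕ) (f g : ℕ → ℝ) :
    binE w k (fun s => f s + g s) = binE w k f + binE w k g := by
  unfold binE
  rw [← Finset.sum_add_distrib]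
  exact Finset.sum_congr rfl fun s _ => by ring

lemma binE_mul (w : ℝ) (k : ℕ) (c : ℝ) (f : ℕ → ℝ) :
    binE w k (fun s => c * f s) = c * binE w k f := by
  unfold binE
  rw [Finset.mul_sum]
  exact Finset.sum_congr rfl fun s _ => by ring

lemma binE_one (w : ℝ) (k : ℕ) : binE w k (fun _ => 1) = 1 := by
  unfold binE
  have h := add_pow w (1 - w) k
  rw [add_sub_cancel, one_pow] at h
  exact (Finset.sum_congr rfl fun s _ => by ring).trans h.symm

lemma binE_mono (w : ℝ) (h0 : 0 ≤ w) (h1 : w ≤ 1) (k : ℕ) (f g : ℕ → ℝ)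
    (h : ∀ s ≤ k, f s ≤ g s) : binE w k f ≤ binE w k g := by
  unfold binE
  refine Finset.sum_le_sum fun s hs => ?_
  refine mul_le_mul_of_nonneg_left (h s (Nat.lt_succ_iff.mp (Finset.mem_range.mp hs))) ?_
  have : 0 ≤ 1 - w := by linarith
  positivity

lemma binE_inv (w : ℝ) (h0 : 0 < w) (h1 : w ≤ 1) (k : ℕ) :
    binE w k (fun s => 1 / ((s : ℝ) + 1)) ≤ 1 / (w * (k + 1)) := by
  have hw : 0 ≤ 1 - w := by linarith
  rw [le_div_iff₀ (by positivity)]
  have h := add_pow w (1 - w) (k + 1)
  rw [add_sub_cancel, one_pow, Finset.sum_range_succ'] at h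
  have h2 : binE w k (fun s => 1 / ((s : ℝ) + 1)) * (w * (k + 1))
      = ∑ i ∈ Finset.range (k + 1), w ^ (i + 1) * (1 - w) ^ (k + 1 - (i + 1))
          * ((k + 1).choose (i + 1) : ℝ) := by
    unfold binE
    rw [Finset.sum_mul]
    refine Finset.sum_congr rfl fun s _ => ?_
    have h3 : ((k : ℝ) + 1) * (k.choose s : ℝ) = ((k + 1).choose (s + 1) : ℝ) * ((s : ℝ) + 1) := by
      have := Nat.add_one_mul_choose_eq k s
      exact_mod_cast this
    have hs : ((s : ℝ) + 1) ≠ 0 := by positivity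
    have h4 : k + 1 - (s + 1) = k - s := by omega
    rw [h4]
    calc (k.choose s : ℝ) * (w ^ s * (1 - w) ^ (k - s)) * (1 / ((s : ℝ) + 1)) * (w * (k + 1))
        = (((k : ℝ) + 1) * (k.choose s : ℝ)) * (w ^ (s + 1) * (1 - w) ^ (k - s))
            / ((s : ℝ) + 1) := by ring
      _ = (((k + 1).choose (s + 1) : ℝ) * ((s : ℝ) + 1)) * (w ^ (s + 1) * (1 - w) ^ (k - s))
            / ((s : ℝ) + 1) := by rw [h3]
      _ = w ^ (s + 1) * (1 - w) ^ (k - s) * ((k + 1).choose (s + 1) : ℝ) := by
          field_simp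
  rw [h2]
  have h5 : 0 ≤ w ^ 0 * (1 - w) ^ (k + 1 - 0) * ((k + 1).choose 0 : ℝ) := by positivity
  linarith

lemma binE_reflect (w : ℝ) (k : ℕ) (f : ℕ → ℝ) :
    binE w k (fun s => f (k - s)) = binE (1 - w) k f := by
  unfold binE
  rw [← Finset.sum_flip]
  refine Finset.sum_congr rfl fun s hs => ?_
  have hs' : s ≤ k := Nat.lt_succ_iff.mp (Finset.mem_range.mp hs)
  have e1 : k - (k - s) = s := by omega
  have e2 : 1 - (1 - w) = w := by ring
  simp only [e1, e2, Nat.choose_symm hs']
  ring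

/-- upper bound for the probability of an even number -/
noncomputable def pb (s : ℕ) : ℝ := if s = 0 then 1 else 6117 / 10000

lemma pb_nonneg (s : ℕ) : 0 ≤ pb s := by unfold pb; split_ifs <;> norm_num

lemma exp_bound : Real.exp (-(3 / 2)) ≤ 2232 / 10000 := by
  have h1 : (2.718 : ℝ) < Real.exp 1 := by
    have := Real.exp_one_gt_d9
    linarith
  have h2 : Real.exp (3 / 2) * Real.exp (3 / 2) = Real.exp 1 * Real.exp 1 * Real.exp 1 := by
    rw [← Real.exp_add, ← Real.exp_add, ← Real.exp_add]; norm_num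
  have h3 : (2.718 : ℝ) * 2.718 * 2.718 ≤ Real.exp 1 * Real.exp 1 * Real.exp 1 := by
    have h0 : (0 : ℝ) ≤ 2.718 := by norm_num
    exact mul_le_mul (mul_le_mul h1.le h1.le h0 (by linarith)) h1.le h0 (by positivity)
  have h4 : (4.4808 : ℝ) ≤ Real.exp (3 / 2) := by
    by_contra h
    rw [not_le] at h
    have hp := Real.exp_pos (3 / 2)
    have : Real.exp (3 / 2) * Real.exp (3 / 2) < 4.4808 * 4.4808 :=
      mul_lt_mul'' h h hp.le hp.le
    norm_num at this h3
    linarith
  rw [Real.exp_neg]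
  calc (Real.exp (3 / 2))⁻¹ ≤ (4.4808 : ℝ)⁻¹ := inv_anti₀ (by norm_num) h4
    _ ≤ 2232 / 10000 := by norm_num

lemma even_bound (s : ℕ) : (1 + (1 - 2 * q (s - 1)) ^ s) / 2 ≤ pb s := by
  unfold pb
  split_ifs with h
  · subst h; norm_num
  · obtain ⟨t, rfl⟩ : ∃ t, s = t + 1 := ⟨s - 1, by omega⟩
    have e1 : t + 1 - 1 = t := rfl
    have e2 : 1 - 2 * q t = 1 - (3 / 2) / ((t : ℝ) + 1) := by
      unfold q
      have : (t : ℝ) + 1 ≠ 0 := by positivity
      field_simp
      ring
    rw [e1, e2]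
    rcases Nat.eq_zero_or_pos t with ht | ht
    · subst ht; norm_num
    have ht1 : (1 : ℝ) ≤ t := by exact_mod_cast ht
    have hx : (0 : ℝ) ≤ 1 - (3 / 2) / ((t : ℝ) + 1) := by
      rw [sub_nonneg, div_le_one (by positivity)]
      linarith
    have h3 : (1 - (3 / 2) / ((t : ℝ) + 1)) ≤ Real.exp (-((3 / 2) / ((t : ℝ) + 1))) := by
      have := Real.add_one_le_exp (-((3 / 2) / ((t : ℝ) + 1)))
      linarith
    have h4 : (1 - (3 / 2) / ((t : ℝ) + 1)) ^ (t + 1) ≤ Real.exp (-(3 / 2)) := by
      calc (1 - (3 / 2) / ((t : ℝ) + 1)) ^ (t + 1)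
          ≤ (Real.exp (-((3 / 2) / ((t : ℝ) + 1)))) ^ (t + 1) :=
            pow_le_pow_left₀ hx h3 _
        _ = Real.exp (-(3 / 2)) := by
            rw [← Real.exp_nat_mul]
            congr 1
            push_cast
            have : (t : ℝ) + 1 ≠ 0 := by positivity
            field_simp
    have h5 := exp_bound
    linarith

variable {V : Type*} [DecidableEq V] [Fintype V]

/-- existence of odd functions with few zeros in every weighted sense -/
def HH (V : Type*) [DecidableEq V] [Fintype V] (z : ℕ → ℝ) : Prop :=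
  ∀ W : Finset V → ℝ, (∀ S, 0 ≤ W S) → ∃ F : Finset V → ZMod 2, E F = F ∧
    ∑ S : Finset V, W S * (if F S = 0 then 1 else 0) ≤ ∑ S : Finset V, W S * z S.card

lemma HH_one : HH V (fun _ => 1) := by
  intro W hW
  refine ⟨fun _ => 0, ?_, ?_⟩
  · funext S; simp [E]
  · simp

lemma HH_mono (z z' : ℕ → ℝ) (h : HH V z) (hz : ∀ k, z k ≤ z' k) : HH V z' := by
  intro W hW
  obtain ⟨F, hF, hle⟩ := h W hW
  refine ⟨F, hF, hle.trans ?_⟩
  exact Finset.sum_le_sum fun S _ => mul_le_mul_of_nonneg_left (hz _) (hW S)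

lemma HH_min (z : ℕ → ℝ) (h : HH V z) : HH V (fun k => min 1 (z k)) := by
  intro W hW
  obtain ⟨F, hF, hle⟩ := h (fun S => if z S.card < 1 then W S else 0)
    (fun S => by split_ifs; exacts [hW S, le_refl 0])
  refine ⟨F, hF, ?_⟩
  have h1 : ∀ S : Finset V, W S * (if F S = 0 then (1 : ℝ) else 0)
      ≤ (if z S.card < 1 then W S else 0) * (if F S = 0 then 1 else 0)
        + (if z S.card < 1 then 0 else W S) := by
    intro S
    have := hW S
    split_ifs <;> simp [*]
  have h2 : ∀ S : Finset V, (if z S.card < 1 then W S else 0) * z S.card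
        + (if z S.card < 1 then 0 else W S) = W S * min 1 (z S.card) := by
    intro S
    split_ifs with hz
    · rw [min_eq_right hz.le, add_zero]
    · rw [min_eq_left (not_lt.mp hz)]; ring
  calc ∑ S : Finset V, W S * (if F S = 0 then (1 : ℝ) else 0)
      ≤ ∑ S : Finset V, ((if z S.card < 1 then W S else 0) * (if F S = 0 then 1 else 0)
        + (if z S.card < 1 then 0 else W S)) := Finset.sum_le_sum fun S _ => h1 S
    _ = ∑ S : Finset V, (if z S.card < 1 then W S else 0) * (if F S = 0 then 1 else 0)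
        + ∑ S : Finset V, (if z S.card < 1 then 0 else W S) := Finset.sum_add_distrib
    _ ≤ ∑ S : Finset V, (if z S.card < 1 then W S else 0) * z S.card
        + ∑ S : Finset V, (if z S.card < 1 then 0 else W S) := by linarith
    _ = ∑ S : Finset V, W S * min 1 (z S.card) := by
        rw [← Finset.sum_add_distrib]
        exact Finset.sum_congr rfl fun S _ => h2 S

/-- the step map on bounds -/
noncomputable def st (w : ℝ) (z : ℕ → ℝ) (k : ℕ) : ℝ :=
  binE w k (fun s => q s + pb s * z (k - s))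

lemma sum_wt_card (w : ℝ) (S : Finset V) (g : ℕ → ℝ) :
    ∑ U ∈ S.powerset, wt w S U * g U.card = binE w S.card g := by
  have h1 : ∀ U ∈ S.powerset, wt w S U * g U.card
      = (fun s => w ^ s * (1 - w) ^ (S.card - s) * g s) U.card := by
    intro U hU
    rw [wt_self w S U (Finset.mem_powerset.mp hU)]
  rw [Finset.sum_congr rfl h1,
    Finset.sum_powerset_apply_card (fun s => w ^ s * (1 - w) ^ (S.card - s) * g s)]
  unfold binE
  refine Finset.sum_congr rfl fun s _ => ?_
  rw [nsmul_eq_mul]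
  ring

lemma mean_zero (V1 : Finset V) (D : Finset V → ZMod 2) (S : Finset V) :
    ∑ N : Finset V → ZMod 2, nu N * (if P V1 N D S = 0 then 1 else 0)
      ≤ q (V1 ∩ S).card + pb (V1 ∩ S).card * (if D (S \ (V1 ∩ S)) = 0 then 1 else 0) := by
  have e1 : V1 ∩ S = S ∩ V1 := Finset.inter_comm _ _
  have e2 : S \ (S ∩ V1) = S \ V1 := by
    ext x; simp only [Finset.mem_sdiff, Finset.mem_inter]; tauto
  rw [e1, e2]
  set dd : ℝ := if D (S \ V1) = 0 then 1 else 0 with hdd
  have hdd0 : 0 ≤ dd := by rw [hdd]; split_ifs <;> norm_num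
  have h1 : ∀ N : Finset V → ZMod 2, nu N * (if P V1 N D S = 0 then (1 : ℝ) else 0)
      ≤ nu N * (if N (S ∩ V1) ≠ 0 then 1 else 0)
        + dd * (nu N * (if ∑ x ∈ S ∩ V1, N ((S ∩ V1).erase x) = 0 then 1 else 0)) := by
    intro N
    have hn := (nu_pos N).le
    have h0 : 0 ≤ (if N (S ∩ V1) ≠ 0 then (1 : ℝ) else 0) := by split_ifs <;> norm_num
    have h0' : 0 ≤ (if ∑ x ∈ S ∩ V1, N ((S ∩ V1).erase x) = 0 then (1 : ℝ) else 0) := by
      split_ifs <;> norm_num
    by_cases hP : P V1 N D S = 0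
    · rw [if_pos hP]
      rcases P_zero V1 N D S hP with h | ⟨h, h'⟩
      · rw [if_pos h]
        have : 0 ≤ dd * (nu N * (if ∑ x ∈ S ∩ V1, N ((S ∩ V1).erase x) = 0 then (1 : ℝ) else 0)) := by
          positivity
        linarith
      · rw [if_pos h]
        have hd1 : dd = 1 := by rw [hdd, if_pos h']
        rw [hd1]
        have : 0 ≤ nu N * (if N (S ∩ V1) ≠ 0 then (1 : ℝ) else 0) := mul_nonneg hn h0
        linarith
    · rw [if_neg hP, mul_zero]
      positivity
  calc ∑ N : Finset V → ZMod 2, nu N * (if P V1 N D S = 0 then (1 : ℝ) else 0)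
      ≤ ∑ N : Finset V → ZMod 2, (nu N * (if N (S ∩ V1) ≠ 0 then 1 else 0)
        + dd * (nu N * (if ∑ x ∈ S ∩ V1, N ((S ∩ V1).erase x) = 0 then 1 else 0))) :=
        Finset.sum_le_sum fun N _ => h1 N
    _ = q (S ∩ V1).card + dd * ((1 + (1 - 2 * q ((S ∩ V1).card - 1)) ^ (S ∩ V1).card) / 2) := by
        rw [Finset.sum_add_distrib, ← Finset.mul_sum, sum_nu_ne, sum_nu_even]
    _ ≤ q (S ∩ V1).card + pb (S ∩ V1).card * dd := by
        have := mul_le_mul_of_nonneg_left (even_bound (S ∩ V1).card) hdd0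
        linarith

lemma HH_step (w : ℝ) (h0 : 0 < w) (h1 : w < 1) (z : ℕ → ℝ) (h : HH V z) : HH V (st w z) := by
  intro W hW
  set W' : Finset V → ℝ := fun T => ∑ S : Finset V, W S *
    ∑ U ∈ S.powerset, wt w S U * (pb U.card * (if S \ U = T then 1 else 0)) with hW'
  have hW'0 : ∀ T, 0 ≤ W' T := by
    intro T
    refine Finset.sum_nonneg fun S _ => mul_nonneg (hW S) (Finset.sum_nonneg fun U _ => ?_)
    refine mul_nonneg (wt_pos w h0 h1 S U).le (mul_nonneg (pb_nonneg _) ?_)
    split_ifs <;> norm_num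
  obtain ⟨D, hD, hDle⟩ := h W' hW'0
  have hpush : ∀ f : Finset V → ℝ, ∑ T : Finset V, W' T * f T
      = ∑ S : Finset V, W S * ∑ U ∈ S.powerset, wt w S U * (pb U.card * f (S \ U)) := by
    intro f
    calc ∑ T : Finset V, W' T * f T
        = ∑ T : Finset V, ∑ S : Finset V, W S *
            ∑ U ∈ S.powerset, wt w S U * (pb U.card * (if S \ U = T then f T else 0)) := by
          refine Finset.sum_congr rfl fun T _ => ?_
          rw [hW', Finset.sum_mul]
          refine Finset.sum_congr rfl fun S _ => ?_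
          rw [mul_assoc, Finset.sum_mul]
          congr 1
          refine Finset.sum_congr rfl fun U _ => ?_
          split_ifs <;> ring
      _ = ∑ S : Finset V, ∑ T : Finset V, W S *
            ∑ U ∈ S.powerset, wt w S U * (pb U.card * (if S \ U = T then f T else 0)) :=
          Finset.sum_comm
      _ = ∑ S : Finset V, W S * ∑ U ∈ S.powerset, wt w S U * (pb U.card * f (S \ U)) := by
          refine Finset.sum_congr rfl fun S _ => ?_
          rw [← Finset.mul_sum, Finset.sum_comm]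
          congr 1
          refine Finset.sum_congr rfl fun U _ => ?_
          rw [← Finset.mul_sum, ← Finset.mul_sum]
          congr 2
          simp
  -- the averaged inequality
  set R : ℝ := ∑ S : Finset V, W S * ∑ U ∈ S.powerset, wt w S U *
    (q U.card + pb U.card * (if D (S \ U) = 0 then 1 else 0)) with hR
  have havg : ∑ p : Finset V × (Finset V → ZMod 2), (wt w Finset.univ p.1 * nu p.2) *
      (∑ S : Finset V, W S * (if P p.1 p.2 D S = 0 then 1 else 0)) ≤ R := by
    rw [Fintype.sum_prod_type]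
    calc ∑ V1 : Finset V, ∑ N : Finset V → ZMod 2, (wt w Finset.univ V1 * nu N) *
          (∑ S : Finset V, W S * (if P V1 N D S = 0 then (1 : ℝ) else 0))
        = ∑ S : Finset V, W S * ∑ V1 : Finset V, wt w Finset.univ V1 *
            ∑ N : Finset V → ZMod 2, nu N * (if P V1 N D S = 0 then (1 : ℝ) else 0) := by
          have e : ∀ V1 : Finset V, ∑ N : Finset V → ZMod 2, (wt w Finset.univ V1 * nu N) *
              (∑ S : Finset V, W S * (if P V1 N D S = 0 then (1 : ℝ) else 0))
              = ∑ S : Finset V, W S * (wt w Finset.univ V1 *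
            ∑ N : Finset V → ZMod 2, nu N * (if P V1 N D S = 0 then (1 : ℝ) else 0)) := by
            intro V1
            simp_rw [Finset.mul_sum]
            rw [Finset.sum_comm]
            refine Finset.sum_congr rfl fun S _ => Finset.sum_congr rfl fun N _ => by ring
          rw [Finset.sum_congr rfl fun V1 _ => e V1, Finset.sum_comm]
          refine Finset.sum_congr rfl fun S _ => ?_
          rw [← Finset.mul_sum]
      _ ≤ ∑ S : Finset V, W S * ∑ V1 : Finset V, wt w Finset.univ V1 *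
            (fun U : Finset V => q U.card + pb U.card * (if D (S \ U) = 0 then (1 : ℝ) else 0))
              (V1 ∩ S) := by
          refine Finset.sum_le_sum fun S _ => mul_le_mul_of_nonneg_left ?_ (hW S)
          refine Finset.sum_le_sum fun V1 _ => mul_le_mul_of_nonneg_left ?_ (wt_pos w h0 h1 _ _).le
          exact mean_zero V1 D S
      _ = R := by
          rw [hR]
          refine Finset.sum_congr rfl fun S _ => ?_
          rw [wt_marginal_univ w S (fun U : Finset V => q U.card + pb U.card *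
            (if D (S \ U) = 0 then (1 : ℝ) else 0))]
  have hsum1 : ∑ p : Finset V × (Finset V → ZMod 2), (wt w Finset.univ p.1 * nu p.2) = 1 := by
    rw [Fintype.sum_prod_type]
    simp_rw [← Finset.mul_sum]
    rw [sum_nu]
    simp only [mul_one]
    exact sum_wt w
  obtain ⟨⟨V1, N⟩, -, hle⟩ := exists_le_of_weighted Finset.univ
    (fun p : Finset V × (Finset V → ZMod 2) => wt w Finset.univ p.1 * nu p.2) _ R
    (fun p _ => mul_pos (wt_pos w h0 h1 _ _) (nu_pos _)) hsum1 havg
  refine ⟨P V1 N D, E_P V1 N D hD, hle.trans ?_⟩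
  -- compare R with the target
  have hR2 : R = ∑ S : Finset V, W S * ∑ U ∈ S.powerset, wt w S U * q U.card
      + ∑ T : Finset V, W' T * (if D T = 0 then 1 else 0) := by
    rw [hpush, hR, ← Finset.sum_add_distrib]
    refine Finset.sum_congr rfl fun S _ => ?_
    rw [← mul_add, ← Finset.sum_add_distrib]
    congr 1
    exact Finset.sum_congr rfl fun U _ => by ring
  have hR3 : ∑ S : Finset V, W S * st w z S.card
      = ∑ S : Finset V, W S * ∑ U ∈ S.powerset, wt w S U * q U.card
        + ∑ T : Finset V, W' T * z T.card := by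
    rw [hpush, ← Finset.sum_add_distrib]
    refine Finset.sum_congr rfl fun S _ => ?_
    rw [← mul_add, ← Finset.sum_add_distrib]
    congr 1
    unfold st
    rw [← sum_wt_card w S]
    refine Finset.sum_congr rfl fun U hU => ?_
    rw [Finset.card_sdiff_of_subset (Finset.mem_powerset.mp hU)]
    ring
  rw [hR2, hR3]
  linarith

/-- the bound after `J` rounds -/
noncomputable def bd (J k : ℕ) : ℝ := 17 / ((k : ℝ) + 1) + (3 / 4) ^ J

lemma st_bd (J k : ℕ) (hk : 17 ≤ k) : st (11 / 50) (bd J) k ≤ bd (J + 1) k := by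
  have hk1 : (0 : ℝ) < (k : ℝ) + 1 := by positivity
  set L : ℝ := (3 / 4) ^ J with hL
  have hL0 : 0 < L := by positivity
  -- bound by pieces
  have h1 : st (11 / 50) (bd J) k ≤ binE (11 / 50) k (fun s => (3 / 4) * (1 / ((s : ℝ) + 1))
      + ((6117 / 10000) * ((17 * (fun r : ℕ => 1 / ((r : ℝ) + 1)) (k - s)) + L * 1)
        + (if s = 0 then (3883 / 10000) * (17 / ((k : ℝ) + 1) + L) else 0))) := by
    unfold st
    refine binE_mono _ (by norm_num) (by norm_num) _ _ _ fun s hs => ?_
    have e1 : q s = (3 / 4) * (1 / ((s : ℝ) + 1)) := by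
      unfold q
      have : (s : ℝ) + 1 ≠ 0 := by positivity
      field_simp
    have e2 : bd J (k - s) = 17 * (1 / (((k - s : ℕ) : ℝ) + 1)) + L := by
      unfold bd
      rw [hL]; ring
    rw [e1, e2]
    unfold pb
    split_ifs with h
    · subst h
      simp only [Nat.sub_zero]
      apply le_of_eq
      ring
    · apply le_of_eq
      ring
  have h2 : binE (11 / 50) k (fun s => (3 / 4) * (1 / ((s : ℝ) + 1))
      + ((6117 / 10000) * ((17 * (fun r : ℕ => 1 / ((r : ℝ) + 1)) (k - s)) + L * 1)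
        + (if s = 0 then (3883 / 10000) * (17 / ((k : ℝ) + 1) + L) else 0)))
      = (3 / 4) * binE (11 / 50) k (fun s => 1 / ((s : ℝ) + 1))
        + ((6117 / 10000) * (17 * binE (1 - 11 / 50) k (fun r => 1 / ((r : ℝ) + 1)) + L)
          + (39 / 50) ^ k * ((3883 / 10000) * (17 / ((k : ℝ) + 1) + L))) := by
    have hrefl : binE (11 / 50) k (fun s => (fun r : ℕ => 1 / ((r : ℝ) + 1)) (k - s))
        = binE (1 - 11 / 50) k (fun r => 1 / ((r : ℝ) + 1)) :=
      binE_reflect (11 / 50) k (fun r : ℕ => 1 / ((r : ℝ) + 1))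
    rw [binE_add, binE_mul, binE_add, binE_mul, binE_add, binE_mul, binE_mul, binE_one, hrefl]
    have : binE (11 / 50) k (fun s => if s = 0 then (3883 / 10000) * (17 / ((k : ℝ) + 1) + L) else 0)
        = (39 / 50) ^ k * ((3883 / 10000) * (17 / ((k : ℝ) + 1) + L)) := by
      unfold binE
      rw [Finset.sum_eq_single 0]
      · norm_num
      · intro b _ hb
        simp only [if_neg hb, mul_zero]
      · intro h
        exact absurd (Finset.mem_range.mpr (Nat.succ_pos k)) h
    rw [this, mul_one]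
  have h3 : binE (11 / 50) k (fun s => 1 / ((s : ℝ) + 1)) ≤ (50 / 11) / ((k : ℝ) + 1) := by
    refine (binE_inv (11 / 50) (by norm_num) (by norm_num) k).trans (le_of_eq ?_)
    field_simp
  have h4 : binE (1 - 11 / 50) k (fun s => 1 / ((s : ℝ) + 1)) ≤ (50 / 39) / ((k : ℝ) + 1) := by
    refine (binE_inv (1 - 11 / 50) (by norm_num) (by norm_num) k).trans (le_of_eq ?_)
    field_simp
    norm_num
  have h5 : (39 / 50 : ℝ) ^ k ≤ 3 / 200 := by
    calc (39 / 50 : ℝ) ^ k ≤ (39 / 50) ^ 17 :=
          pow_le_pow_of_le_one (by norm_num) (by norm_num) hk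
      _ ≤ 3 / 200 := by norm_num
  have h6 : (39 / 50 : ℝ) ^ k * ((3883 / 10000) * (17 / ((k : ℝ) + 1) + L))
      ≤ (3 / 200) * ((3883 / 10000) * (17 / ((k : ℝ) + 1) + L)) :=
    mul_le_mul_of_nonneg_right h5 (by positivity)
  have hu : (0 : ℝ) < 1 / ((k : ℝ) + 1) := by positivity
  have g1 : (50 / 11) / ((k : ℝ) + 1) = (50 / 11) * (1 / ((k : ℝ) + 1)) := by ring
  have g2 : (50 / 39) / ((k : ℝ) + 1) = (50 / 39) * (1 / ((k : ℝ) + 1)) := by ring
  have g3 : 17 / ((k : ℝ) + 1) = 17 * (1 / ((k : ℝ) + 1)) := by ring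
  have h7 : bd (J + 1) k = 17 * (1 / ((k : ℝ) + 1)) + (3 / 4) * L := by
    unfold bd
    rw [hL, pow_succ]; ring
  rw [h7]
  rw [g1] at h3
  rw [g2] at h4
  rw [g3] at h6
  rw [h2, g3] at h1
  nlinarith [h1, h3, h4, h6, hu, hL0]

lemma HH_bd (J : ℕ) : HH V (bd J) := by
  induction J with
  | zero =>
    refine HH_mono _ _ HH_one fun k => ?_
    unfold bd
    have : (0 : ℝ) ≤ 17 / ((k : ℝ) + 1) := by positivity
    simp only [pow_zero]
    linarith
  | succ J ih =>
    refine HH_mono _ _ (HH_min _ (HH_step (11 / 50) (by norm_num) (by norm_num) _ ih)) fun k => ?_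
    by_cases hk : 17 ≤ k
    · exact (min_le_right _ _).trans (st_bd J k hk)
    · refine (min_le_left _ _).trans ?_
      unfold bd
      have h1 : (k : ℝ) + 1 ≤ 17 := by
        have : k + 1 ≤ 17 := by omega
        exact_mod_cast this
      have h2 : (1 : ℝ) ≤ 17 / ((k : ℝ) + 1) := by
        rw [le_div_iff₀ (by positivity)]
        linarith
      have h3 : (0 : ℝ) < (3 / 4) ^ (J + 1) := by positivity
      linarith

end Pool.Agent.Helper81.Cocycle
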